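import Pool.Agent.Helper669.Forcing

/-!
# Tree Prikry forcing adds no fresh subset of an ordinal of cofinality above `κ`

Any two conditions with the same stem are compatible and there are only `κ` many stems. This
is all that is used: the statement below holds for every ultrafilter on `κ`.
-/

namespace Pool.Agent.Results.MP_becacd_lc.TreePrikryNoFreshSubset

open Cardinal Pool.Agent.Helper669.Forcing

universe u

/-- `T` is a tree of finite increasing sequences in `K` with stem `s` all whose nodes `t`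
extending `s` have a successor set in `U`. -/
structure IsTree {K : Type u} [LinearOrder K] (U : Ultrafilter K) (s : List K)
    (T : Set (List K)) : Prop where
  /-- nodes are strictly increasing sequences -/
  increasing : ∀ t ∈ T, t.Pairwise (· < ·)
  /-- initial segments of nodes are nodes -/
  initial : ∀ t ∈ T, ∀ r, r <+: t → r ∈ T
  /-- the stem is a node -/
  stem_mem : s ∈ T
  /-- nodes are comparable with the stem -/
  comparable : ∀ t ∈ T, t <+: s ∨ s <+: t
  /-- the successor sets above the stem are large -/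
  large : ∀ t ∈ T, s <+: t → {α : K | t ++ [α] ∈ T} ∈ U

/-- The conditions of the tree Prikry forcing with the ultrafilter `U`. -/
structure TreePrikry {K : Type u} [LinearOrder K] (U : Ultrafilter K) where
  /-- the stem -/
  stem : List K
  /-- the tree -/
  tree : Set (List K)
  /-- it is a tree with that stem and large successor sets -/
  isTree : IsTree U stem tree

/-- `q ≤ p` iff the stem of `q` is a node of the tree of `p` which end-extends the stem of `p`,
and the tree of `q` is contained in the tree of `p`. -/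
instance {K : Type u} [LinearOrder K] (U : Ultrafilter K) : Preorder (TreePrikry U) where
  le q p := q.stem ∈ p.tree ∧ p.stem <+: q.stem ∧ q.tree ⊆ p.tree
  le_refl p := ⟨p.isTree.stem_mem, List.prefix_refl _, subset_rfl⟩
  le_trans _ _ _ h h' := ⟨h'.2.2 h.1, h'.2.1.trans h.2.1, h.2.2.trans h'.2.2⟩

/-- The subset of `Λ` named by `A` coincides below `β` with the ground model set `a`. -/
def AgreeBelow {P : Type u} [Preorder P] {Λ : Type u} [LinearOrder Λ] (A : Λ → Set P)
    (a : Set Λ) (β : Λ) : Set P :=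
  fall fun γ : Λ => fall fun _ : γ < β =>
    fand (fimp (meets (A γ)) (fground (γ ∈ a))) (fimp (fground (γ ∈ a)) (meets (A γ)))

/-- The subset of `Λ` named by `A` coincides with the ground model set `a`. -/
def Agree {P : Type u} [Preorder P] {Λ : Type u} (A : Λ → Set P) (a : Set Λ) : Set P :=
  fall fun γ : Λ =>
    fand (fimp (meets (A γ)) (fground (γ ∈ a))) (fimp (fground (γ ∈ a)) (meets (A γ)))

/-- The sentence: every subset of `Λ` in the extension, all whose proper initial segments are in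
the ground model, is in the ground model. Names for subsets of `Λ` are maps from `Λ` to the
sets of conditions; the set named by `A` consists of the `γ` such that the generic filter
meets `A γ`. -/
def NoFreshSubset (P : Type u) [Preorder P] (Λ : Type u) [LinearOrder Λ] : Set P :=
  fall fun A : Λ → Set P =>
    fimp (fall fun β : Λ => fex fun a : Set Λ => AgreeBelow A a β)
      (fex fun a : Set Λ => Agree A a)

theorem down_agreeBelow {P : Type u} [Preorder P] {Λ : Type u} [LinearOrder Λ]
    (A : Λ → Set P) (a : Set Λ) (β : Λ) : Down (AgreeBelow A a β) :=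
  down_fall fun _ => down_fall fun _ => down_fand (down_fimp _ _) (down_fimp _ _)

/-- a condition deciding `A` below `β` as `a` and one deciding it below `β'` as `a'` agree, if
they are compatible -/
theorem agree_of_common {P : Type u} [Preorder P] {Λ : Type u} [LinearOrder Λ]
    {A : Λ → Set P} {a a' : Set Λ} {β β' γ : Λ} {r : P} (h : r ∈ AgreeBelow A a β)
    (h' : r ∈ AgreeBelow A a' β') (hγ : γ < β) (hγ' : γ < β') : γ ∈ a → γ ∈ a' := by
  intro hm
  obtain ⟨r1, hr1, h1⟩ := mem_fimp.1 (h γ hγ).2 r le_rfl hm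
  obtain ⟨r2, -, h2⟩ := mem_fimp.1 (h' γ hγ').1 r1 hr1 h1
  exact h2

/-- The general fact. -/
theorem noFresh_of_linked {P : Type u} [Preorder P] {S : Type u} (st : P → S)
    (hst : ∀ p q : P, st p = st q → ∃ r, r ≤ p ∧ r ≤ q)
    {Λ : Type u} [LinearOrder Λ] [NoMaxOrder Λ]
    (hΛ : ∀ f : S → S → Λ, ∃ β, ∀ s t, f s t < β) (p : P) :
    p ∈ NoFreshSubset P Λ := by
  classical
  intro A
  rw [mem_fimp]
  intro q hq hA
  -- `D r β a` : the condition `r` decides `A` below `β` as `a`
  have hdec : ∀ r ≤ q, ∀ β : Λ, ∃ r' ≤ r, ∃ a, r' ∈ AgreeBelow A a β := by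
    intro r hr β
    have := hA β
    exact mem_fex.1 this r hr
  -- the bad set of `β` for the stem `s` at `r`
  have key : ∃ s : S, ∃ q' ≤ q, ∀ r ≤ q', ∀ β : Λ, ∃ r' ≤ r, ∃ β' > β, ∃ d : P, st d = s ∧
      r' ≤ d ∧ ∃ a, d ∈ AgreeBelow A a β' := by
    by_contra hcon
    push Not at hcon
    -- for all `s` and `q' ≤ q` there are `r ≤ q'` and `β`
    have hcon' : ∀ s : S, ∀ q' ≤ q, ∃ r ≤ q', ∃ β : Λ, ∀ r' ≤ r, ∀ β' > β, ∀ d : P, st d = s →
        r' ≤ d → ∀ a, d ∉ AgreeBelow A a β' := hcon
    -- least bounds by choice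
    let Good : S → S → Λ → Prop := fun s t β => ∃ d : P, st d = t ∧ ∀ r' ≤ d, ∀ β' > β, ∀ d' : P,
      st d' = s → r' ≤ d' → ∀ a, d' ∉ AgreeBelow A a β'
    by_cases hne : Nonempty Λ
    · obtain ⟨lam⟩ := hne
      obtain ⟨β, hβ⟩ := hΛ fun s t => if h : ∃ β, Good s t β then h.choose else lam
      obtain ⟨r, hr, a, ha⟩ := hdec q le_rfl β
      obtain ⟨r1, hr1, β1, h1⟩ := hcon' (st r) r hr
      have hG : ∃ β, Good (st r) (st r1) β := ⟨β1, r1, rfl, h1⟩
      have hb := hβ (st r) (st r1)
      rw [dif_pos hG] at hb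
      obtain ⟨d, hd, hd'⟩ := hG.choose_spec
      obtain ⟨r2, hr2, hr2'⟩ := hst d r1 hd
      exact hd' r2 hr2 β hb r rfl (hr2'.trans hr1) a ha
    · obtain ⟨r, hr, β, -⟩ := hcon' (st q) q le_rfl
      exact hne ⟨β⟩
  obtain ⟨s, q', hq', hkey⟩ := key
  -- the ground model set
  let B : Set Λ := {γ | ∃ β > γ, ∃ d : P, st d = s ∧ ∃ a, d ∈ AgreeBelow A a β ∧ γ ∈ a}
  have hB : ∀ d : P, st d = s → ∀ β a, d ∈ AgreeBelow A a β → ∀ γ < β, (γ ∈ B ↔ γ ∈ a) := by
    intro d hd β a ha γ hγ
    constructor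
    · rintro ⟨β', hβ', d', hd', a', ha', hm⟩
      obtain ⟨r, hr, hr'⟩ := hst d d' (hd.trans hd'.symm)
      exact agree_of_common (down_agreeBelow _ _ _ _ ha' _ hr')
        (down_agreeBelow _ _ _ _ ha _ hr) hβ' hγ hm
    · intro hm
      exact ⟨β, hγ, d, hd, a, ha, hm⟩
  refine ⟨q', hq', mem_fex_of_mem B
    (down_fall fun _ => down_fand (down_fimp _ _) (down_fimp _ _)) ?_⟩
  intro γ
  refine ⟨?_, ?_⟩
  · rw [mem_fimp]
    intro r hr hmem
    obtain ⟨r', hr', β', hβ', d, hd, hle, a, ha⟩ := hkey r hr γ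
    obtain ⟨r1, -, h1⟩ := mem_fimp.1 (down_agreeBelow _ _ _ _ ha _ hle γ hβ').1 r' le_rfl
      (down_meets _ _ hmem _ hr')
    exact ⟨r, le_rfl, (hB d hd β' a ha γ hβ').2 h1⟩
  · rw [mem_fimp]
    intro r hr hmem
    obtain ⟨r', hr', β', hβ', d, hd, hle, a, ha⟩ := hkey r hr γ
    obtain ⟨r1, hr1, h1⟩ := mem_fimp.1 (down_agreeBelow _ _ _ _ ha _ hle γ hβ').2 r' le_rfl
      ((hB d hd β' a ha γ hβ').1 hmem)
    exact ⟨r1, hr1.trans hr', h1⟩

/-- two conditions of the tree Prikry forcing with the same stem are compatible -/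
theorem exists_common {K : Type u} [LinearOrder K] {U : Ultrafilter K} (p q : TreePrikry U)
    (h : p.stem = q.stem) : ∃ r, r ≤ p ∧ r ≤ q := by
  have hT : IsTree U p.stem (p.tree ∩ q.tree) := by
    refine ⟨fun t ht => p.isTree.increasing t ht.1, fun t ht r hr =>
      ⟨p.isTree.initial t ht.1 r hr, q.isTree.initial t ht.2 r hr⟩,
      ⟨p.isTree.stem_mem, h ▸ q.isTree.stem_mem⟩, fun t ht => p.isTree.comparable t ht.1, ?_⟩
    intro t ht hs
    filter_upwards [p.isTree.large t ht.1 hs, q.isTree.large t ht.2 (h ▸ hs)] with α h1 h2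
    exact ⟨h1, h2⟩
  refine ⟨⟨p.stem, p.tree ∩ q.tree, hT⟩, ?_, ?_⟩
  · exact ⟨p.isTree.stem_mem, List.prefix_refl _, Set.inter_subset_left⟩
  · exact ⟨h ▸ q.isTree.stem_mem, h ▸ List.prefix_refl _, Set.inter_subset_right⟩

/-- Let `κ` be an infinite cardinal and `U` an ultrafilter on `κ`. Every condition of the tree
Prikry forcing with `U` forces, for every ordinal `o` of cofinality above `κ`, that there is no
fresh subset of `o`. -/
theorem result (κ : Cardinal.{u}) (hκ : ℵ₀ ≤ κ) (U : Ultrafilter κ.ord.ToType)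
    (o : Ordinal.{u}) (ho : κ < o.cof) (p : TreePrikry U) :
    p ∈ NoFreshSubset (TreePrikry U) o.ToType := by
  have hlim : Order.IsSuccLimit o :=
    Ordinal.one_lt_cof_iff.1 (Cardinal.one_lt_aleph0.trans_le (hκ.trans ho.le))
  have : NoMaxOrder o.ToType := by
    refine Ordinal.isSuccPrelimit_type_lt_iff.1 ?_
    rw [Ordinal.type_toType]
    exact hlim.isSuccPrelimit
  refine noFresh_of_linked (fun p => p.stem) exists_common ?_ p
  intro f
  have hinf : Infinite κ.ord.ToType := by
    rw [Cardinal.infinite_iff, Cardinal.mk_toType, Cardinal.card_ord]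
    exact hκ
  have hcard : #(Set.range fun x : List κ.ord.ToType × List κ.ord.ToType => f x.1 x.2)
      < Order.cof o.ToType := by
    rw [Ordinal.cof_toType]
    refine lt_of_le_of_lt Cardinal.mk_range_le (lt_of_le_of_lt ?_ ho)
    rw [Cardinal.mk_prod, Cardinal.lift_id, Cardinal.mk_list_eq_mk, Cardinal.mk_toType,
      Cardinal.card_ord, Cardinal.mul_eq_self hκ]
  have hnot : ¬ IsCofinal
      (Set.range fun x : List κ.ord.ToType × List κ.ord.ToType => f x.1 x.2) :=
    fun h => absurd (Order.cof_le h) (not_le.2 hcard)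
  obtain ⟨x, hx⟩ := not_isCofinal_iff.1 hnot
  exact ⟨x, fun s t => hx _ ⟨(s, t), rfl⟩⟩

/-- The case of the successor cardinal, with the hypotheses on `κ` and `U` of the question. -/
theorem successor_case (κ : Cardinal.{u}) (hκ : ℵ₀ < κ) (U : Ultrafilter κ.ord.ToType)
    (_ : ∀ F : Set (Set κ.ord.ToType), #F < κ → (∀ X ∈ F, X ∈ U) → ⋂₀ F ∈ U)
    (_ : ∀ α : κ.ord.ToType, {α} ∉ U) (p : TreePrikry U) :
    p ∈ NoFreshSubset (TreePrikry U) (Order.succ κ).ord.ToType := by
  refine result κ hκ.le U _ ?_ p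
  rw [Cardinal.IsRegular.cof_ord (Cardinal.isRegular_succ hκ.le)]
  exact Order.lt_succ κ

end Pool.Agent.Results.MP_becacd_lc.TreePrikryNoFreshSubset
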